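import Pool.Agent.C2.Stmts

/-!
# Squad C2M (MP_503f8d_mp), row CUD: the dimension of the cut space and of its complement
-/

set_option autoImplicit false

namespace Pool.Agent.C2.H50

open Finset Pool.Agent.C2

section
variable {E : Type} [Fintype E] {F : Type} [Field F]

/-- the standard form -/
noncomputable def sf (F E : Type) [Fintype E] [Field F] : LinearMap.BilinForm F (E → F) :=
  LinearMap.mk₂ F (fun x y => ∑ e, x e * y e)
    (fun x x' y => by simp [add_mul, Finset.sum_add_distrib])
    (fun c x y => by simp [mul_assoc, Finset.mul_sum])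
    (fun x y y' => by simp [mul_add, Finset.sum_add_distrib])
    (fun c x y => by
      simp only [Pi.smul_apply, smul_eq_mul, Finset.mul_sum]
      exact Finset.sum_congr rfl fun e _ => by ring)

theorem sf_apply (x y : E → F) : sf F E x y = ∑ e, x e * y e := rfl

theorem sf_symm (x y : E → F) : sf F E x y = sf F E y x := by
  rw [sf_apply, sf_apply]
  exact Finset.sum_congr rfl fun e _ => mul_comm _ _

theorem sf_refl : (sf F E).IsRefl := by
  intro x y h
  rw [sf_symm]; exact h

theorem sf_sep (x : E → F) (h : ∀ y, sf F E x y = 0) : x = 0 := by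
  classical
  funext e
  have h1 := h (Pi.single e 1)
  rw [sf_apply, Finset.sum_eq_single e] at h1
  · simpa using h1
  · intro e' _ hne
    rw [Pi.single_eq_of_ne hne, mul_zero]
  · intro h2; exact absurd (Finset.mem_univ e) h2

theorem sf_nondeg : (sf F E).Nondegenerate := by
  refine ⟨fun x h => sf_sep x h, fun y h => sf_sep y fun x => ?_⟩
  rw [sf_symm]; exact h x

theorem perp_eq (U : Submodule F (E → F)) : perp U = (sf F E).orthogonal U := by
  ext p
  rw [LinearMap.BilinForm.mem_orthogonal_iff]
  constructor
  · intro h y hy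
    show sf F E y p = 0
    rw [sf_symm]
    exact h y hy
  · intro h y hy
    have h1 : sf F E y p = 0 := h y hy
    rw [sf_symm] at h1
    exact h1

end

/-- **CUD** -/
theorem cud : CudStmt := by
  intro F _ _ V E _ _ _ _ _ s t hc
  classical
  set D : (V → F) →ₗ[F] (E → F) := LinearMap.pi
    (fun e => (LinearMap.proj (t e) : (V → F) →ₗ[F] F) - LinearMap.proj (s e)) with hD
  have hcut : cut F s t = LinearMap.range D := rfl
  have hker : ∀ u : V → F, D u = 0 → ∀ x y, u x = u y := by
    intro u hu x y
    have he : ∀ e, u (t e) = u (s e) := by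
      intro e
      have h1 := congrFun hu e
      simp only [hD, LinearMap.pi_apply, LinearMap.sub_apply, LinearMap.proj_apply,
        Pi.zero_apply] at h1
      exact sub_eq_zero.1 h1
    have hstep : ∀ a b, Step s t univ a b → u a = u b := by
      rintro a b ⟨e, -, (⟨rfl, rfl⟩ | ⟨rfl, rfl⟩)⟩
      · exact (he e).symm
      · exact he e
    have hp := hc x y
    induction hp with
    | refl => rfl
    | tail _ h2 ih => exact ih.trans (hstep _ _ h2)
  have hfk : Module.finrank F (LinearMap.ker D) = 1 := by
    obtain ⟨v0⟩ := ‹Nonempty V›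
    have h1 : (fun _ : V => (1 : F)) ∈ LinearMap.ker D := by
      rw [LinearMap.mem_ker]
      funext e
      simp [hD]
    refine finrank_eq_one_iff'.2 ⟨(⟨fun _ => 1, h1⟩ : LinearMap.ker D), ?_, ?_⟩
    · intro h0
      have := congrFun (congrArg Subtype.val h0) v0
      exact one_ne_zero this
    · rintro ⟨u, hu⟩
      refine ⟨u v0, ?_⟩
      apply Subtype.ext
      funext x
      show u v0 * 1 = u x
      rw [mul_one]
      exact hker u (LinearMap.mem_ker.1 hu) v0 x
  have hrn := LinearMap.finrank_range_add_finrank_ker D
  rw [hfk, Module.finrank_fintype_fun_eq_card, ← hcut] at hrn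
  have hle : Module.finrank F (cut F s t) ≤ Fintype.card E := by
    rw [← Module.finrank_fintype_fun_eq_card F (η := E)]
    exact Submodule.finrank_le _
  refine ⟨hrn, ?_, ?_⟩
  · rw [perp_eq, LinearMap.BilinForm.finrank_orthogonal sf_nondeg,
      Module.finrank_fintype_fun_eq_card]
    omega
  · rw [perp_eq, perp_eq]
    exact LinearMap.BilinForm.orthogonal_orthogonal sf_nondeg sf_refl _

end Pool.Agent.C2.H50
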