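import Pool.Agent.C2.Stmts

/-!
# Squad C2M (MP_503f8d_mp), row SIZ: `q^5` divides `S_I`
-/

set_option autoImplicit false

namespace Pool.Agent.C2.H50

open Finset Pool.Agent.C2

theorem card_sub_int {X : Type} [Fintype X] (P : X → Prop) [DecidablePred P] :
    (Nat.card {x // P x} : ℤ) = ∑ x : X, if P x then (1 : ℤ) else 0 := by
  rw [Nat.card_eq_fintype_card, Fintype.card_subtype, Finset.card_filter, Nat.cast_sum]
  exact Finset.sum_congr rfl fun x _ => by split_ifs <;> simp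

/-- **SIZ** -/
theorem siz (hdiv : DivStmt) (hspl : SplStmt) (hsum : SumStmt) : SizStmt := by
  intro F _ _ _ V E _ _ _ _ s t hl J _ o I i hi hcase
  classical
  by_cases hoi : ∃ j, o j = i
  · obtain ⟨j, hj⟩ := hoi
    have h0 : SI F s t o I = 0 := by
      unfold SI
      refine Finset.sum_eq_zero fun b _ => Finset.sum_eq_zero fun d _ => ?_
      have he : IsEmpty {k : V → F // (∀ x, Lap s t b d k x = 0) ∧ (∀ j, k (o j) ≠ 0) ∧
          ∀ x ∈ I, k x = 0} := by
        refine ⟨fun k => k.2.2.1 j ?_⟩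
        rw [hj]
        exact k.2.2.2 i hi
      rw [Nat.card_of_isEmpty, Nat.cast_zero, mul_zero]
    rw [h0]
    exact dvd_zero _
  have hcard := hcase.resolve_left hoi
  have hoi' : ∀ j, o j ≠ i := fun j h => hoi ⟨j, h⟩
  let C : ({e : E // s e ≠ i ∧ t e ≠ i} → F) → ({w : V // w ≠ i} → F) →
      ({w : V // w ≠ i} → F) → Prop := fun b1 d1 k1 =>
    (∀ x, Lap (delS s t i) (delT s t i) b1 d1 k1 x = 0) ∧ (∀ j, k1 ⟨o j, hoi' j⟩ ≠ 0) ∧
      ∀ x : {w : V // w ≠ i}, x.1 ∈ I → k1 x = 0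
  let f : ({e : E // s e ≠ i ∧ t e ≠ i} → F) → ({e : E // ¬ (s e ≠ i ∧ t e ≠ i)} → F) →
      ({w : V // w ≠ i} → F) → F → ℤ := fun b1 b2 d1 a =>
    (cE a (bd (oth s t hl i) b2) (LapM (delS s t i) (delT s t i) b1 d1) : ℤ) ^ 2 *
      ∑ k1 : {w : V // w ≠ i} → F,
        if C b1 d1 k1 ∧ ∑ x, bd (oth s t hl i) b2 x * k1 x = 0 then 1 else 0
  have h1 : SI F s t o I = ∑ b : E → F, ∑ d : V → F,
      wt b * f (fun e => b e.1) (fun e => b e.1) (fun w => d w.1) (d i) := by
    unfold SI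
    refine Finset.sum_congr rfl fun b _ => Finset.sum_congr rfl fun d _ => ?_
    obtain ⟨p1, p2, -, -⟩ := hspl F V E s t hl i b d
    show _ = wt b * ((cE (d i) (bd (oth s t hl i) (fun e => b e.1))
      (LapM (delS s t i) (delT s t i) (fun e => b e.1) (fun w => d w.1)) : ℤ) ^ 2 * _)
    rw [p1, mul_assoc, ← card_sub_int]
    congr 3
    refine Nat.card_congr
      { toFun := fun k => ⟨fun w => k.1 w.1, ?_⟩
        invFun := fun k1 => ⟨fun x => if h : x = i then 0 else k1.1 ⟨x, h⟩, ?_⟩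
        left_inv := ?_
        right_inv := ?_ }
    · have hki : k.1 i = 0 := k.2.2.2 i hi
      have h2 := (p2 k.1).1 k.2.1
      rw [hki] at h2
      refine ⟨⟨fun x => ?_, fun j => k.2.2.1 j, fun x hx => k.2.2.2 x.1 hx⟩, ?_⟩
      · have h3 := h2.2 x
        rw [mul_zero, add_zero] at h3
        exact h3
      · have h3 := h2.1
        rw [mul_zero, zero_add] at h3
        exact h3
    · have hk1 : (fun w : {w : V // w ≠ i} =>
          (fun x => if h : x = i then (0 : F) else k1.1 ⟨x, h⟩) w.1) = k1.1 := by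
        funext w
        show (if h : w.1 = i then (0 : F) else k1.1 ⟨w.1, h⟩) = k1.1 w
        rw [dif_neg w.2]
      refine ⟨(p2 _).2 ⟨?_, fun x => ?_⟩, fun j => ?_, fun x hx => ?_⟩
      · show d i * (if h : i = i then (0 : F) else k1.1 ⟨i, h⟩) +
          ∑ x : {w : V // w ≠ i}, bd (oth s t hl i) (fun e => b e.1) x *
            (if h : x.1 = i then (0 : F) else k1.1 ⟨x.1, h⟩) = 0
        rw [dif_pos rfl, mul_zero, zero_add]
        refine Eq.trans (Finset.sum_congr rfl fun x _ => ?_) k1.2.2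
        rw [dif_neg x.2]
      · rw [hk1, dif_pos rfl, mul_zero, add_zero]
        exact k1.2.1.1 x
      · show (if h : o j = i then (0 : F) else k1.1 ⟨o j, h⟩) ≠ 0
        rw [dif_neg (hoi' j)]
        exact k1.2.1.2.1 j
      · show (if h : x = i then (0 : F) else k1.1 ⟨x, h⟩) = 0
        by_cases h : x = i
        · rw [dif_pos h]
        · rw [dif_neg h]
          exact k1.2.1.2.2 ⟨x, h⟩ hx
    · intro k
      apply Subtype.ext
      funext x
      show (if h : x = i then (0 : F) else k.1 x) = k.1 x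
      by_cases h : x = i
      · rw [dif_pos h, h]
        exact (k.2.2.2 i hi).symm
      · rw [dif_neg h]
    · intro k1
      apply Subtype.ext
      funext w
      show (if h : w.1 = i then (0 : F) else k1.1 ⟨w.1, h⟩) = k1.1 w
      rw [dif_neg w.2]
  rw [h1, hsum F V E s t i f]
  refine Finset.dvd_sum fun b1 _ => Finset.dvd_sum fun d1 _ => Dvd.dvd.mul_left ?_ _
  have h2 : ∑ b2 : {e : E // ¬ (s e ≠ i ∧ t e ≠ i)} → F, ∑ a : F, wt b2 * f b1 b2 d1 a =
      ∑ k1 : {w : V // w ≠ i} → F, if C b1 d1 k1 then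
        (∑ b2 : {e : E // ¬ (s e ≠ i ∧ t e ≠ i)} → F, ∑ a : F,
          if ∑ x, bd (oth s t hl i) b2 x * k1 x = 0 then wt b2 *
            (cE a (bd (oth s t hl i) b2) (LapM (delS s t i) (delT s t i) b1 d1) : ℤ) ^ 2 else 0)
        else 0 := by
    have h3 : ∀ (b2 : {e : E // ¬ (s e ≠ i ∧ t e ≠ i)} → F) (a : F), wt b2 * f b1 b2 d1 a =
        ∑ k1 : {w : V // w ≠ i} → F, if C b1 d1 k1 then
          (if ∑ x, bd (oth s t hl i) b2 x * k1 x = 0 then wt b2 *
            (cE a (bd (oth s t hl i) b2) (LapM (delS s t i) (delT s t i) b1 d1) : ℤ) ^ 2 else 0)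
          else 0 := by
      intro b2 a
      show wt b2 * ((cE a (bd (oth s t hl i) b2) (LapM (delS s t i) (delT s t i) b1 d1) : ℤ) ^ 2 *
        ∑ k1 : {w : V // w ≠ i} → F,
          if C b1 d1 k1 ∧ ∑ x, bd (oth s t hl i) b2 x * k1 x = 0 then 1 else 0) = _
      rw [← mul_assoc, Finset.mul_sum]
      refine Finset.sum_congr rfl fun k1 _ => ?_
      by_cases hC : C b1 d1 k1
      · by_cases hb : ∑ x, bd (oth s t hl i) b2 x * k1 x = 0
        · rw [if_pos ⟨hC, hb⟩, if_pos hC, if_pos hb, mul_one]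
        · rw [if_neg (fun h => hb h.2), if_pos hC, if_neg hb, mul_zero]
      · rw [if_neg (fun h => hC h.1), if_neg hC, mul_zero]
    rw [Finset.sum_congr rfl fun b2 _ => Finset.sum_congr rfl fun a _ => h3 b2 a]
    rw [Finset.sum_congr rfl fun b2 _ => Finset.sum_comm, Finset.sum_comm]
    refine Finset.sum_congr rfl fun k1 _ => ?_
    by_cases hC : C b1 d1 k1
    · rw [if_pos hC]
      exact Finset.sum_congr rfl fun b2 _ => Finset.sum_congr rfl fun a _ => if_pos hC
    · rw [if_neg hC]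
      exact Finset.sum_eq_zero fun b2 _ => Finset.sum_eq_zero fun a _ => if_neg hC
  rw [h2]
  refine Finset.dvd_sum fun k1 _ => ?_
  by_cases hC : C b1 d1 k1
  · rw [if_pos hC]
    obtain ⟨j⟩ := ‹Nonempty J›
    have hl' : ∀ e, delS s t i e ≠ delT s t i e := fun e h => hl e.1 (congrArg Subtype.val h)
    obtain ⟨-, -, p3, p4⟩ := hspl F {w : V // w ≠ i} {e : E // s e ≠ i ∧ t e ≠ i}
      (delS s t i) (delT s t i) hl' ⟨o j, hoi' j⟩ b1 d1
    refine hdiv F {w : V // w ≠ i} {e : E // ¬ (s e ≠ i ∧ t e ≠ i)} (oth s t hl i)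
      (LapM (delS s t i) (delT s t i) b1 d1) k1 p4 hcard (fun x => ?_) ?_
    · rw [← p3 k1 x]
      exact hC.1 x
    · intro h0
      exact hC.2.1 j (congrFun h0 _)
  · rw [if_neg hC]
    exact dvd_zero _

end Pool.Agent.C2.H50
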