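import Pool.Agent.Helper50_C2.NQ2
import Pool.Agent.Helper50_C2.CUD

/-!
# Squad C2M (MP_503f8d_mp), row ZER

`c(b)` = dimension of the space of the `p` in `U` with `b p` in `U`-perp.  The sum of `q^(2 c(b))` is
`nn U univ`, the sum of `q^(c(b))` is divisible by `q^2`, and `nz U` is the number of the `b` with
`c(b) > 0`.
-/

set_option autoImplicit false

namespace Pool.Agent.C2.H50

open Finset Pool.Agent.C2

theorem card_prod_sub {P Q : Type} [Fintype P] [Finite Q] (R : P → Q → Prop) :
    Nat.card {x : P × Q // R x.1 x.2} = ∑ p, Nat.card {q // R p q} := by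
  classical
  have := Fintype.ofFinite Q
  rw [Nat.card_congr (Equiv.subtypeProdEquivSigmaSubtype R), Nat.card_sigma]

theorem sum_card_swap {P Q : Type} [Fintype P] [Fintype Q] (R : P → Q → Prop) :
    ∑ p, Nat.card {q // R p q} = ∑ q, Nat.card {p // R p q} := by
  rw [← card_prod_sub R, ← card_prod_sub (fun q p => R p q)]
  exact Nat.card_congr ((Equiv.prodComm P Q).subtypeEquiv fun x => Iff.rfl)

section
variable {E : Type} [Fintype E] {F : Type} [Field F]

theorem fr_perp (W : Submodule F (E → F)) :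
    Module.finrank F (perp W) + Module.finrank F W = Fintype.card E := by
  have hle : Module.finrank F W ≤ Fintype.card E := by
    rw [← Module.finrank_fintype_fun_eq_card F (η := E)]
    exact Submodule.finrank_le _
  rw [perp_eq, LinearMap.BilinForm.finrank_orthogonal sf_nondeg,
    Module.finrank_fintype_fun_eq_card]
  omega

theorem card_mod [Fintype F] (V : Type) [AddCommGroup V] [Module F V] [Module.Finite F V] :
    Nat.card V = Fintype.card F ^ Module.finrank F V := by
  rw [Module.natCard_eq_pow_finrank (K := F) (V := V), Nat.card_eq_fintype_card]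

/-- the multiples of `p` by elements of `U` -/
noncomputable def L1 (U : Submodule F (E → F)) (p : E → F) : U →ₗ[F] (E → F) :=
  (LinearMap.mulLeft F p).comp U.subtype

/-- the combinations `p u + p' w` -/
noncomputable def L2 (U : Submodule F (E → F)) (p p' : E → F) : (U × U) →ₗ[F] (E → F) :=
  (L1 U p).coprod (L1 U p')

theorem mem_l1 (U : Submodule F (E → F)) (p b : E → F) :
    b ∈ perp (LinearMap.range (L1 U p)) ↔ (fun e => b e * p e) ∈ perp U := by
  constructor
  · intro h y hy
    have h1 := h (L1 U p ⟨y, hy⟩) ⟨_, rfl⟩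
    rw [← h1]
    exact Finset.sum_congr rfl fun e _ => mul_assoc _ _ _
  · rintro h _ ⟨⟨y, hy⟩, rfl⟩
    have h1 := h y hy
    rw [← h1]
    exact Finset.sum_congr rfl fun e _ => (mul_assoc _ _ _).symm

theorem mem_l2 (U : Submodule F (E → F)) (p p' b : E → F) :
    b ∈ perp (LinearMap.range (L2 U p p')) ↔
      (fun e => b e * p e) ∈ perp U ∧ (fun e => b e * p' e) ∈ perp U := by
  rw [← mem_l1, ← mem_l1]
  constructor
  · intro h
    constructor
    · rintro _ ⟨y, rfl⟩
      refine h _ ⟨(y, 0), ?_⟩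
      simp [L2]
    · rintro _ ⟨y, rfl⟩
      refine h _ ⟨(0, y), ?_⟩
      simp [L2]
  · rintro ⟨h1, h2⟩ _ ⟨⟨y, z⟩, rfl⟩
    have a1 := h1 _ ⟨y, rfl⟩
    have a2 := h2 _ ⟨z, rfl⟩
    have : L2 U p p' (y, z) = L1 U p y + L1 U p' z := by simp [L2]
    rw [this]
    simp only [Pi.add_apply, mul_add, Finset.sum_add_distrib]
    rw [a1, a2, add_zero]

/-- the kernel of `b` -/
noncomputable def KM (U : Submodule F (E → F)) (b : E → F) : Submodule F (E → F) :=
  U ⊓ (perp U).comap (LinearMap.mulLeft F b)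

theorem mem_km (U : Submodule F (E → F)) (b p : E → F) :
    p ∈ KM U b ↔ p ∈ U ∧ (fun e => b e * p e) ∈ perp U := Iff.rfl

theorem card_km [Fintype F] (U : Submodule F (E → F)) (b : E → F) :
    Nat.card {p : U // (fun e => b e * p.1 e) ∈ perp U} =
      Fintype.card F ^ Module.finrank F (KM U b) := by
  rw [← card_mod (KM U b)]
  exact Nat.card_congr
    { toFun := fun p => ⟨p.1.1, p.1.2, p.2⟩
      invFun := fun p => ⟨⟨p.1, p.2.1⟩, p.2.2⟩
      left_inv := fun _ => rfl
      right_inv := fun _ => rfl }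

/-- the first sum -/
theorem sum_one [Fintype F] [DecidableEq E] (U : Submodule F (E → F)) (h3 : 2 ≤ Module.finrank F U)
    (hE : Fintype.card E = 2 * Module.finrank F U) :
    Fintype.card F ^ 2 ∣ ∑ b : E → F, Fintype.card F ^ Module.finrank F (KM U b) := by
  classical
  rw [← Finset.sum_congr rfl fun b _ => card_km U b,
    sum_card_swap (fun (b : E → F) (p : U) => (fun e => b e * p.1 e) ∈ perp U)]
  refine Finset.dvd_sum fun p _ => ?_
  have h1 : Nat.card {b : E → F // (fun e => b e * p.1 e) ∈ perp U} =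
      Nat.card (perp (LinearMap.range (L1 U p.1))) :=
    Nat.card_congr (Equiv.subtypeEquivRight fun b => (mem_l1 U p.1 b).symm)
  rw [h1, card_mod (F := F)]
  apply pow_dvd_pow
  have h2 := fr_perp (LinearMap.range (L1 U p.1))
  have h4 := LinearMap.finrank_range_le (L1 U p.1)
  omega

/-- the second sum -/
theorem sum_two [Fintype F] [DecidableEq E] (U : Submodule F (E → F)) (hE : Fintype.card E = 2 * Module.finrank F U) :
    ∑ b : E → F, (Fintype.card F ^ Module.finrank F (KM U b)) ^ 2 = nn U univ := by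
  classical
  have h0 : ∀ b : E → F, (Fintype.card F ^ Module.finrank F (KM U b)) ^ 2 =
      Nat.card {x : U × U // (fun e => b e * x.1.1 e) ∈ perp U ∧
        (fun e => b e * x.2.1 e) ∈ perp U} := by
    intro b
    rw [← card_km, sq, ← Nat.card_prod]
    exact Nat.card_congr (Equiv.subtypeProdEquivProd
      (p := fun p : U => (fun e => b e * p.1 e) ∈ perp U)
      (q := fun p : U => (fun e => b e * p.1 e) ∈ perp U)).symm
  rw [Finset.sum_congr rfl fun b _ => h0 b,
    sum_card_swap (fun (b : E → F) (x : U × U) => (fun e => b e * x.1.1 e) ∈ perp U ∧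
        (fun e => b e * x.2.1 e) ∈ perp U)]
  have h1 : ∀ x : U × U, Nat.card {b : E → F // (fun e => b e * x.1.1 e) ∈ perp U ∧
        (fun e => b e * x.2.1 e) ∈ perp U} =
      Nat.card {y : U × U // ∀ e, x.1.1 e * y.1.1 e + x.2.1 e * y.2.1 e = 0} := by
    intro x
    have h2 : Nat.card {b : E → F // (fun e => b e * x.1.1 e) ∈ perp U ∧
        (fun e => b e * x.2.1 e) ∈ perp U} =
        Nat.card (perp (LinearMap.range (L2 U x.1.1 x.2.1))) :=
      Nat.card_congr (Equiv.subtypeEquivRight fun b => (mem_l2 U x.1.1 x.2.1 b).symm)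
    have h3 : Nat.card {y : U × U // ∀ e, x.1.1 e * y.1.1 e + x.2.1 e * y.2.1 e = 0} =
        Nat.card (LinearMap.ker (L2 U x.1.1 x.2.1)) := by
      refine Nat.card_congr (Equiv.subtypeEquivRight fun y => ?_)
      rw [LinearMap.mem_ker]
      constructor
      · intro h
        funext e
        exact h e
      · intro h e
        exact congrFun h e
    rw [h2, h3, card_mod (F := F), card_mod (F := F)]
    congr 1
    have h4 := fr_perp (LinearMap.range (L2 U x.1.1 x.2.1))
    have h5 := LinearMap.finrank_range_add_finrank_ker (L2 U x.1.1 x.2.1)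
    rw [Module.finrank_prod] at h5
    omega
  rw [Finset.sum_congr rfl fun x _ => h1 x, ← card_prod_sub (fun (x y : U × U) =>
    ∀ e, x.1.1 e * y.1.1 e + x.2.1 e * y.2.1 e = 0)]
  unfold nn
  refine Nat.card_congr
    { toFun := fun z => ⟨![z.1.1.1.1, z.1.1.2.1, -z.1.2.2.1, z.1.2.1.1], ?_, ?_⟩
      invFun := fun x => ⟨((⟨x.1 0, x.2.1 0⟩, ⟨x.1 1, x.2.1 1⟩),
        (⟨x.1 3, x.2.1 3⟩, ⟨-x.1 2, U.neg_mem (x.2.1 2)⟩)), ?_⟩
      left_inv := ?_
      right_inv := ?_ }
  · intro i
    fin_cases i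
    · exact z.1.1.1.2
    · exact z.1.1.2.2
    · exact U.neg_mem z.1.2.2.2
    · exact z.1.2.1.2
  · intro e _
    have := z.2 e
    show z.1.1.1.1 e * z.1.2.1.1 e = z.1.1.2.1 e * (-z.1.2.2.1 e)
    linear_combination this
  · intro e
    have := x.2.2 e (Finset.mem_univ e)
    show x.1 0 e * x.1 3 e + x.1 1 e * (-x.1 2 e) = 0
    linear_combination this
  · rintro ⟨⟨⟨a, b⟩, ⟨c, d⟩⟩, h⟩
    apply Subtype.ext
    refine Prod.ext (Prod.ext rfl rfl) (Prod.ext rfl ?_)
    apply Subtype.ext
    exact neg_neg d.1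
  · rintro ⟨x, h⟩
    apply Subtype.ext
    funext i
    fin_cases i
    · rfl
    · rfl
    · exact neg_neg (x 2)
    · rfl

end

/-- **ZER** -/
theorem zer : ZerStmt := by
  intro F _ _ E _ _ U h3 hE
  classical
  set q : ℤ := (Fintype.card F : ℤ) with hq
  set c : (E → F) → ℕ := fun b => Module.finrank F (KM U b) with hc
  have hs1 : (q ^ 2 ∣ ∑ b : E → F, q ^ c b) := by
    have h := Int.natCast_dvd_natCast.2 (sum_one U (by omega) hE)
    rw [Nat.cast_pow, Nat.cast_sum] at h
    simp only [Nat.cast_pow] at h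
    exact h
  have hs2 : ∑ b : E → F, q ^ (2 * c b) = (nn U univ : ℤ) := by
    rw [← sum_two U hE, Nat.cast_sum]
    refine Finset.sum_congr rfl fun b _ => ?_
    rw [Nat.cast_pow, Nat.cast_pow, ← pow_mul, mul_comm]
  have hs3 : q ^ 2 ∣ (nn U univ : ℤ) := by
    have h := Int.natCast_dvd_natCast.2 (nn_dvd U univ 2 (by omega) le_rfl)
    rw [Nat.cast_pow] at h
    exact h
  -- the numbers
  set n0 : ℤ := ∑ b : E → F, if c b = 0 then 1 else 0 with hn0
  set n1 : ℤ := ∑ b : E → F, if c b = 1 then 1 else 0 with hn1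
  have hnz : (nz U : ℤ) = ∑ b : E → F, if c b = 0 then 0 else 1 := by
    have h1 : nz U = Fintype.card {b : E → F // c b ≠ 0} := by
      unfold nz
      rw [Nat.card_eq_fintype_card]
      refine Fintype.card_congr (Equiv.subtypeEquivRight fun b => ?_)
      rw [hc]
      simp only [ne_eq]
      rw [Submodule.finrank_eq_zero, ← ne_eq, Submodule.ne_bot_iff]
      constructor
      · rintro ⟨p, hp, hp0, hb⟩
        exact ⟨p, (mem_km U b p).2 ⟨hp, hb⟩, hp0⟩
      · rintro ⟨p, hp, hp0⟩
        exact ⟨p, ((mem_km U b p).1 hp).1, hp0, ((mem_km U b p).1 hp).2⟩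
    rw [h1, Fintype.card_subtype, Finset.card_filter, Nat.cast_sum]
    refine Finset.sum_congr rfl fun b _ => ?_
    by_cases hb : c b = 0
    · rw [if_neg (not_not.2 hb), if_pos hb]; rfl
    · rw [if_pos hb, if_neg hb]; rfl
  have htot : n0 + (nz U : ℤ) = q ^ Fintype.card E := by
    rw [hnz, hn0, ← Finset.sum_add_distrib]
    have h1 : ∀ b : E → F, ((if c b = 0 then (1 : ℤ) else 0) + if c b = 0 then 0 else 1) = 1 := by
      intro b; split_ifs <;> simp
    rw [Finset.sum_congr rfl fun b _ => h1 b, Finset.sum_const, Finset.card_univ, nsmul_eq_mul,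
      mul_one, Fintype.card_fun, Nat.cast_pow]
  have hA : ∃ Y : ℤ, ∑ b : E → F, q ^ c b = n0 + q * n1 + q ^ 2 * Y := by
    refine ⟨∑ b : E → F, if 2 ≤ c b then q ^ (c b - 2) else 0, ?_⟩
    rw [hn0, hn1, Finset.mul_sum, Finset.mul_sum, ← Finset.sum_add_distrib,
      ← Finset.sum_add_distrib]
    refine Finset.sum_congr rfl fun b _ => ?_
    rcases Nat.lt_or_ge (c b) 2 with h | h
    · interval_cases hcb : c b <;> simp
    · rw [if_neg (by omega), if_neg (by omega), if_pos h, ← pow_add]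
      rw [show 2 + (c b - 2) = c b by omega]
      ring
  have hB : ∃ X : ℤ, ∑ b : E → F, q ^ (2 * c b) = n0 + q ^ 2 * n1 + q ^ 3 * X := by
    refine ⟨∑ b : E → F, if 2 ≤ c b then q ^ (2 * c b - 3) else 0, ?_⟩
    rw [hn0, hn1, Finset.mul_sum, Finset.mul_sum, ← Finset.sum_add_distrib,
      ← Finset.sum_add_distrib]
    refine Finset.sum_congr rfl fun b _ => ?_
    rcases Nat.lt_or_ge (c b) 2 with h | h
    · interval_cases hcb : c b <;> simp
    · rw [if_neg (by omega), if_neg (by omega), if_pos h, ← pow_add]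
      rw [show 3 + (2 * c b - 3) = 2 * c b by omega]
      ring
  obtain ⟨Y, hY⟩ := hA
  obtain ⟨X, hX⟩ := hB
  rw [hs2] at hX
  have hq0 : q ≠ 0 := by
    rw [hq]; exact_mod_cast Fintype.card_ne_zero
  -- q^2 divides n0
  have hd0 : q ^ 2 ∣ n0 := by
    have h1 : n0 = (nn U univ : ℤ) - q ^ 2 * (n1 + q * X) := by rw [hX]; ring
    rw [h1]
    exact dvd_sub hs3 (Dvd.intro _ rfl)
  -- q divides n1
  have hd1 : q ∣ n1 := by
    have h1 : q ^ 2 ∣ q * n1 := by
      have h2 : q * n1 = (∑ b : E → F, q ^ c b) - n0 - q ^ 2 * Y := by rw [hY]; ring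
      rw [h2]
      exact dvd_sub (dvd_sub hs1 hd0) (Dvd.intro _ rfl)
    rw [sq] at h1
    exact (mul_dvd_mul_iff_left hq0).1 h1
  have hqE : q ^ 3 ∣ q ^ Fintype.card E := pow_dvd_pow _ (by omega)
  constructor
  · have h1 : (nn U univ : ℤ) + (nz U : ℤ) = q ^ Fintype.card E + q ^ 2 * n1 + q ^ 3 * X := by
      rw [← htot, hX]; ring
    rw [h1]
    refine dvd_add (dvd_add hqE ?_) (Dvd.intro _ rfl)
    rw [pow_succ]
    exact mul_dvd_mul_left _ hd1
  · have h1 : q ^ 2 ∣ (nz U : ℤ) := by
      have h2 : (nz U : ℤ) = q ^ Fintype.card E - n0 := by rw [← htot]; ring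
      rw [h2]
      exact dvd_sub (dvd_trans (pow_dvd_pow _ (by norm_num)) hqE) hd0
    rw [← Int.natCast_dvd_natCast, Nat.cast_pow]
    exact h1

end Pool.Agent.C2.H50
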