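import Pool.Agent.C2.Stmts

/-!
# Squad C2M (MP_503f8d_mp), row NQ2

The part with `x 2 ≠ 0` has a free action of `F × F` (unipotent matrices from the left and from the
right), the part with `x 2 = 0` a free action of `U` (translation of `x 1`).
-/

set_option autoImplicit false

namespace Pool.Agent.C2.H50

open Finset Pool.Agent.C2

/-- A free action of a finite group: its order divides the number of points. -/
theorem free_dvd {A X : Type} [AddGroup A] [Finite A] [Finite X] (act : A → X → X)
    (h0 : ∀ x, act 0 x = x) (hadd : ∀ a b x, act (a + b) x = act a (act b x))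
    (hfree : ∀ a x, act a x = x → a = 0) : Nat.card A ∣ Nat.card X := by
  classical
  let r : Setoid X :=
    { r := fun x y => ∃ a, y = act a x
      iseqv := by
        refine ⟨fun x => ⟨0, (h0 x).symm⟩, ?_, ?_⟩
        · rintro x y ⟨a, rfl⟩
          refine ⟨-a, ?_⟩
          rw [← hadd, neg_add_cancel, h0]
        · rintro x y z ⟨a, rfl⟩ ⟨b, rfl⟩
          exact ⟨b + a, (hadd b a x).symm⟩ }
  haveI : Finite (Quotient r) := Quotient.finite r
  haveI : Fintype (Quotient r) := Fintype.ofFinite _
  have e : X ≃ Σ q : Quotient r, {x : X // Quotient.mk r x = q} :=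
    (Equiv.sigmaFiberEquiv (Quotient.mk r)).symm
  have hfib : ∀ q : Quotient r, Nat.card {x : X // Quotient.mk r x = q} = Nat.card A := by
    intro q
    obtain ⟨x0, rfl⟩ := Quotient.exists_rep q
    symm
    refine Nat.card_congr (Equiv.ofBijective
      (fun a => ⟨act a x0, Quotient.sound (Setoid.symm ⟨a, rfl⟩)⟩) ⟨?_, ?_⟩)
    · intro a b hab
      have h1 : act a x0 = act b x0 := congrArg Subtype.val hab
      have h2 : act (-b + a) x0 = x0 := by
        rw [hadd, h1, ← hadd, neg_add_cancel, h0]
      have h3 := hfree _ _ h2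
      exact (neg_add_eq_zero.1 h3).symm
    · rintro ⟨x, hx⟩
      obtain ⟨a, ha⟩ := Quotient.exact hx.symm
      exact ⟨a, Subtype.ext ha.symm⟩
  rw [Nat.card_congr e, Nat.card_sigma]
  exact Finset.dvd_sum fun q _ => by rw [hfib q]

theorem card_split {X : Type} [Finite X] (p : X → Prop) :
    Nat.card X = Nat.card {x // p x} + Nat.card {x // ¬ p x} := by
  classical
  rw [← Nat.card_sum]
  exact Nat.card_congr (Equiv.sumCompl p).symm

/-- `q^k` divides `nn U S` for `k <= 2`, `k <= dim U` -/
theorem nn_dvd {F : Type} [Field F] [Fintype F] {E : Type} [Fintype E] [DecidableEq E]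
    (U : Submodule F (E → F)) (S : Finset E) (k : ℕ) (hU : k ≤ Module.finrank F U)
    (hk : k ≤ 2) : Fintype.card F ^ k ∣ nn U S := by
  classical
  unfold nn
  rw [card_split (X := {x : Fin 4 → E → F // (∀ i, x i ∈ U) ∧
    ∀ e ∈ S, x 0 e * x 3 e = x 1 e * x 2 e}) (fun x => x.1 2 = 0)]
  refine dvd_add ?_ ?_
  · -- translation of `x 1`
    have h1 : Nat.card U ∣ Nat.card {x : {x : Fin 4 → E → F // (∀ i, x i ∈ U) ∧
        ∀ e ∈ S, x 0 e * x 3 e = x 1 e * x 2 e} // x.1 2 = 0} := by
      refine free_dvd (A := U) (fun u x => ⟨⟨![x.1.1 0, x.1.1 1 + u.1, 0, x.1.1 3], ?_, ?_⟩, ?_⟩)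
        ?_ ?_ ?_
      · intro i
        fin_cases i
        · exact x.1.2.1 0
        · exact U.add_mem (x.1.2.1 1) u.2
        · exact U.zero_mem
        · exact x.1.2.1 3
      · intro e he
        have h2 := x.1.2.2 e he
        rw [x.2] at h2
        show x.1.1 0 e * x.1.1 3 e = (x.1.1 1 + u.1) e * (0 : E → F) e
        rw [h2]
        simp
      · rfl
      · intro x
        apply Subtype.ext
        apply Subtype.ext
        funext i
        fin_cases i
        · rfl
        · show x.1.1 1 + (0 : U).1 = x.1.1 1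
          simp
        · exact x.2.symm
        · rfl
      · intro a b x
        apply Subtype.ext
        apply Subtype.ext
        funext i
        fin_cases i
        · rfl
        · show x.1.1 1 + (a + b : U).1 = (x.1.1 1 + b.1) + a.1
          rw [Submodule.coe_add]
          abel
        · rfl
        · rfl
      · intro a x h
        have h3 := congrFun (congrArg Subtype.val (congrArg Subtype.val h)) 1
        have h4 : x.1.1 1 + a.1 = x.1.1 1 := h3
        apply Subtype.ext
        exact left_eq_add.1 h4.symm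
    refine dvd_trans ?_ h1
    rw [Module.natCard_eq_pow_finrank (K := F) (V := U), Nat.card_eq_fintype_card]
    exact pow_dvd_pow _ hU
  · -- unipotent matrices
    have h1 : Nat.card (F × F) ∣ Nat.card {x : {x : Fin 4 → E → F // (∀ i, x i ∈ U) ∧
        ∀ e ∈ S, x 0 e * x 3 e = x 1 e * x 2 e} // ¬ x.1 2 = 0} := by
      refine free_dvd (A := F × F) (fun a x => ⟨⟨![x.1.1 0 + a.1 • x.1.1 2,
        x.1.1 1 + a.1 • x.1.1 3 + a.2 • x.1.1 0 + (a.1 * a.2) • x.1.1 2, x.1.1 2,
        x.1.1 3 + a.2 • x.1.1 2], ?_, ?_⟩, ?_⟩) ?_ ?_ ?_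
      · intro i
        fin_cases i
        · exact U.add_mem (x.1.2.1 0) (U.smul_mem _ (x.1.2.1 2))
        · exact U.add_mem (U.add_mem (U.add_mem (x.1.2.1 1) (U.smul_mem _ (x.1.2.1 3)))
            (U.smul_mem _ (x.1.2.1 0))) (U.smul_mem _ (x.1.2.1 2))
        · exact x.1.2.1 2
        · exact U.add_mem (x.1.2.1 3) (U.smul_mem _ (x.1.2.1 2))
      · intro e he
        have h2 := x.1.2.2 e he
        show (x.1.1 0 + a.1 • x.1.1 2) e * (x.1.1 3 + a.2 • x.1.1 2) e =
          (x.1.1 1 + a.1 • x.1.1 3 + a.2 • x.1.1 0 + (a.1 * a.2) • x.1.1 2) e * x.1.1 2 e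
        simp only [Pi.add_apply, Pi.smul_apply, smul_eq_mul]
        linear_combination h2
      · exact x.2
      · intro x
        apply Subtype.ext
        apply Subtype.ext
        funext i
        fin_cases i
        · show x.1.1 0 + (0 : F × F).1 • x.1.1 2 = x.1.1 0
          simp
        · show x.1.1 1 + (0 : F × F).1 • x.1.1 3 + (0 : F × F).2 • x.1.1 0 +
            ((0 : F × F).1 * (0 : F × F).2) • x.1.1 2 = x.1.1 1
          simp
        · rfl
        · show x.1.1 3 + (0 : F × F).2 • x.1.1 2 = x.1.1 3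
          simp
      · intro a b x
        apply Subtype.ext
        apply Subtype.ext
        funext i
        fin_cases i
        · show x.1.1 0 + (a + b).1 • x.1.1 2 = (x.1.1 0 + b.1 • x.1.1 2) + a.1 • x.1.1 2
          rw [Prod.fst_add]
          module
        · show x.1.1 1 + (a + b).1 • x.1.1 3 + (a + b).2 • x.1.1 0 +
            ((a + b).1 * (a + b).2) • x.1.1 2 =
            (x.1.1 1 + b.1 • x.1.1 3 + b.2 • x.1.1 0 + (b.1 * b.2) • x.1.1 2) +
              a.1 • (x.1.1 3 + b.2 • x.1.1 2) + a.2 • (x.1.1 0 + b.1 • x.1.1 2) +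
              (a.1 * a.2) • x.1.1 2
          rw [Prod.fst_add, Prod.snd_add]
          module
        · rfl
        · show x.1.1 3 + (a + b).2 • x.1.1 2 = (x.1.1 3 + b.2 • x.1.1 2) + a.2 • x.1.1 2
          rw [Prod.snd_add]
          module
      · intro a x h
        have hval := congrArg Subtype.val (congrArg Subtype.val h)
        have h3 : x.1.1 0 + a.1 • x.1.1 2 = x.1.1 0 := congrFun hval 0
        have h4 : x.1.1 3 + a.2 • x.1.1 2 = x.1.1 3 := congrFun hval 3
        have h5 : a.1 • x.1.1 2 = 0 := left_eq_add.1 h3.symm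
        have h6 : a.2 • x.1.1 2 = 0 := left_eq_add.1 h4.symm
        exact Prod.ext ((smul_eq_zero.1 h5).resolve_right x.2)
          ((smul_eq_zero.1 h6).resolve_right x.2)
    refine dvd_trans (pow_dvd_pow _ hk) ?_
    refine dvd_trans ?_ h1
    rw [Nat.card_prod, Nat.card_eq_fintype_card, sq]

/-- **NQ2** -/
theorem nq2 : Nq2Stmt := by
  intro F _ _ E _ _ U S hU
  exact nn_dvd U S 2 hU le_rfl

end Pool.Agent.C2.H50
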